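import Pool.Agent.Sph.Low
import Pool.Agent.Sph.Upp

/-!
# The `L¹` norms of a holomorphic polynomial and of its real part on the sphere of `ℂ ^ n`

The best constant `K` in `∫ |f| ≤ K ∫ |Re f|` for the holomorphic polynomials `f` on `ℂ ^ n` of degree
at most `N` with `f 0` real is of the exact order `log (N + 1)`, for every `n ≥ 1`.
-/

set_option autoImplicit false

open MeasureTheory MvPolynomial

namespace Pool.Agent.Results.MP_6b57c7_an.LogGrowth

/-- The closed unit ball of `ℂ ^ n`. -/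
def ball (n : ℕ) : Set (Fin n → ℂ) := {z | ∑ i, ‖z i‖ ^ 2 ≤ 1}

/-- `z / |z|` with the euclidean norm of `ℂ ^ n`. -/
noncomputable def radial {n : ℕ} (z : Fin n → ℂ) : Fin n → ℂ :=
  fun i => z i / ((Real.sqrt (∑ j, ‖z j‖ ^ 2) : ℝ) : ℂ)

/-- The mean of a function over the unit sphere of `ℂ ^ n` (normalized volume of the unit ball,
pushed radially to the sphere; this is the rotation invariant probability measure). -/
noncomputable def mean (n : ℕ) (g : (Fin n → ℂ) → ℝ) : ℝ :=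
  (∫ z in ball n, g (radial z)) / (volume (ball n)).toReal

theorem mean_eq (n : ℕ) (g : (Fin n → ℂ) → ℝ) :
    mean n g = Pool.Agent.Sph.A n (fun z => g (fun i => z i)) /
      Pool.Agent.Sph.A n (fun _ => 1) := by
  have h : Pool.Agent.Sph.A n (fun _ => 1) = (volume (ball n)).toReal := by
    unfold Pool.Agent.Sph.A
    rw [setIntegral_const, smul_eq_mul, mul_one]
    rfl
  rw [h]
  rfl

theorem ev_zero {n : ℕ} (f : MvPolynomial (Fin n) ℂ) :
    Pool.Agent.Sph.ev f 0 = constantCoeff f := by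
  have h : (fun i => (0 : Pool.Agent.Sph.E n) i) = (0 : Fin n → ℂ) := rfl
  unfold Pool.Agent.Sph.ev
  rw [h, MvPolynomial.eval_zero]

theorem pos_ball {n : ℕ} (f : MvPolynomial (Fin n) ℂ)
    (h : ∀ z : Pool.Agent.Sph.E n, ‖z‖ ≤ 1 → 0 < (Pool.Agent.Sph.ev f z).re) :
    ∀ z ∈ ball n, 0 < (eval z f).re := by
  intro z hz
  refine h (WithLp.toLp 2 z) ?_
  rw [EuclideanSpace.norm_eq]
  refine Real.sqrt_le_one.2 ?_
  exact hz

/-- **Main theorem.** -/
theorem result :
    -- (1) upper bound, with a constant which does not depend on `n`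
    (∃ C : ℝ, ∀ n N : ℕ, 1 ≤ n → 1 ≤ N → ∀ f : MvPolynomial (Fin n) ℂ, f.totalDegree ≤ N →
      (constantCoeff f).im = 0 →
      mean n (fun z => ‖eval z f‖) ≤ C * Real.log (N + 1) * mean n (fun z => |(eval z f).re|)) ∧
    ∀ n : ℕ, 1 ≤ n → ∃ c : ℝ, 0 < c ∧
      -- (2) lower bound
      (∀ N : ℕ, 1 ≤ N → ∃ f : MvPolynomial (Fin n) ℂ, f.totalDegree ≤ N ∧
        constantCoeff f = 1 ∧ (∀ z ∈ ball n, 0 < (eval z f).re) ∧
        mean n (fun z => |(eval z f).re|) = 1 ∧
        c * Real.log (N + 1) ≤ mean n (fun z => ‖eval z f‖)) ∧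
      -- (3) exponents `p > 1`
      (∀ p : ℝ, 1 < p → p ≤ 2 → ∃ f : MvPolynomial (Fin n) ℂ,
        constantCoeff f = 1 ∧ (∀ z ∈ ball n, 0 < (eval z f).re) ∧
        c / (p - 1) * mean n (fun z => |(eval z f).re| ^ p) ^ (1 / p) ≤
          mean n (fun z => ‖eval z f‖ ^ p) ^ (1 / p)) := by
  refine ⟨?_, fun n hn => ?_⟩
  · obtain ⟨C, hC, hup⟩ := Pool.Agent.Sph.upp_all
    refine ⟨C, fun n N hn hN f hf h0 => ?_⟩
    have hA : 0 < Pool.Agent.Sph.A n (fun _ => 1) := Pool.Agent.Sph.A_pos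
    rw [mean_eq, mean_eq, mul_div_assoc']
    have h1 := hup n hn N hN f hf (by rw [ev_zero]; exact h0)
    exact div_le_div_of_nonneg_right h1 hA.le
  obtain ⟨c1, hc1, hlow⟩ := Pool.Agent.Sph.low1 hn
  obtain ⟨c2, hc2, hlow2⟩ := Pool.Agent.Sph.low2 hn
  have hA : 0 < Pool.Agent.Sph.A n (fun _ => 1) := Pool.Agent.Sph.A_pos
  refine ⟨min c1 c2, lt_min hc1 hc2, ?_, ?_⟩
  · intro N hN
    obtain ⟨f, h0, hd, hp, hb⟩ := hlow N hN
    refine ⟨f, hd, by rw [← ev_zero]; exact h0, pos_ball f hp, ?_, ?_⟩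
    · rw [mean_eq]
      have h1 : Pool.Agent.Sph.A n (fun z => |(eval (fun i => z i) f).re|) =
          Pool.Agent.Sph.A n (fun z => (Pool.Agent.Sph.ev f z).re) := by
        apply Pool.Agent.Sph.A_congr hn
        intro z hz
        exact abs_of_pos (hp z hz.le)
      rw [h1, Pool.Agent.Sph.A_re hn, h0]
      rw [Complex.one_re, one_mul, div_self hA.ne']
    · rw [mean_eq, le_div_iff₀ hA]
      refine le_trans ?_ hb
      refine mul_le_mul_of_nonneg_right ?_ hA.le
      refine mul_le_mul_of_nonneg_right (min_le_left _ _) ?_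
      exact Real.log_nonneg (by linarith [(Nat.cast_nonneg N : (0 : ℝ) ≤ N)])
  · intro p hp1 hp2
    obtain ⟨f, h0, hp, hb⟩ := hlow2 p hp1 hp2
    refine ⟨f, by rw [← ev_zero]; exact h0, pos_ball f hp, ?_⟩
    rw [mean_eq, mean_eq]
    have hp0 : 0 < p := by linarith
    have h1 : Pool.Agent.Sph.A n (fun z => |(eval (fun i => z i) f).re| ^ p) =
        Pool.Agent.Sph.A n (fun z => (Pool.Agent.Sph.ev f z).re ^ p) := by
      apply Pool.Agent.Sph.A_congr hn
      intro z hz
      have : |(eval (fun i => z i) f).re| = (Pool.Agent.Sph.ev f z).re := abs_of_pos (hp z hz.le)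
      simp only [this]
    rw [h1]
    have hnn : 0 ≤ Pool.Agent.Sph.A n (fun z => (Pool.Agent.Sph.ev f z).re ^ p) := by
      rw [← h1]
      apply integral_nonneg
      intro z
      exact Real.rpow_nonneg (abs_nonneg _) _
    have hnn2 : 0 ≤ Pool.Agent.Sph.A n (fun z => ‖eval (fun i => z i) f‖ ^ p) := by
      apply integral_nonneg
      intro z
      exact Real.rpow_nonneg (norm_nonneg _) _
    have hc : 0 ≤ min c1 c2 / (p - 1) := div_nonneg (lt_min hc1 hc2).le (by linarith)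
    have h2 : min c1 c2 / (p - 1) * (Pool.Agent.Sph.A n (fun z => (Pool.Agent.Sph.ev f z).re ^ p) /
        Pool.Agent.Sph.A n (fun _ => 1)) ^ (1 / p) =
        ((min c1 c2 / (p - 1)) ^ p * Pool.Agent.Sph.A n (fun z => (Pool.Agent.Sph.ev f z).re ^ p) /
        Pool.Agent.Sph.A n (fun _ => 1)) ^ (1 / p) := by
      rw [mul_div_assoc, Real.mul_rpow (Real.rpow_nonneg hc _) (div_nonneg hnn hA.le),
        ← Real.rpow_mul hc, mul_one_div_cancel hp0.ne', Real.rpow_one]
    rw [h2]
    apply Real.rpow_le_rpow (div_nonneg (mul_nonneg (Real.rpow_nonneg hc _) hnn) hA.le) _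
      (by positivity)
    apply div_le_div_of_nonneg_right _ hA.le
    refine le_trans ?_ hb
    refine mul_le_mul_of_nonneg_right ?_ hnn
    apply Real.rpow_le_rpow hc _ hp0.le
    exact div_le_div_of_nonneg_right (min_le_right _ _) (by linarith)

end Pool.Agent.Results.MP_6b57c7_an.LogGrowth
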